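import Mathlib
import Pool.Agent.MP_f4a04c_gt.H64.Rigid

/-!
Copies as sets: two copies of a convex body in a convex Kakeya body in three-space that are not
joined by any Hausdorff-continuous family of copies.
-/

namespace Pool.Agent.Results.MP_f4a04c_gt.SetCopies

open Filter Topology

/-- The set `ρ(S) + x`. -/
def copy (S : Set (EuclideanSpace ℝ (Fin 3))) (ρ : Matrix.specialOrthogonalGroup (Fin 3) ℝ)
    (x : EuclideanSpace ℝ (Fin 3)) : Set (EuclideanSpace ℝ (Fin 3)) :=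
  (fun p => Matrix.toEuclideanLin (ρ : Matrix (Fin 3) (Fin 3) ℝ) p + x) '' S

/-- `A` is a subset of `K` of the form `ρ(S) + x`. -/
def IsCopyIn (S K A : Set (EuclideanSpace ℝ (Fin 3))) : Prop := A ⊆ K ∧ ∃ ρ x, A = copy S ρ x

open Pool.Agent.MP_f4a04c_gt.H1 Pool.Agent.MP_f4a04c_gt.H64 in
theorem result : ∃ S K : Set (EuclideanSpace ℝ (Fin 3)),
    IsCompact S ∧ Convex ℝ S ∧ (interior S).Nonempty ∧ IsCompact K ∧ Convex ℝ K ∧
    (∀ ρ, ∃ x, copy S ρ x ⊆ K) ∧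
    ∃ A B, IsCopyIn S K A ∧ IsCopyIn S K B ∧
      ¬ ∃ C : unitInterval → Set (EuclideanSpace ℝ (Fin 3)), C 0 = A ∧ C 1 = B ∧
        (∀ t, IsCopyIn S K (C t)) ∧
        ∀ t, Tendsto (fun u => Metric.hausdorffDist (C u) (C t)) (𝓝 t) (𝓝 0) := by
  have hK : ∀ ρ, ∃ x, copy S ρ x ⊆ K := fun ρ => (S_kakeya (iso ρ)).imp fun x hx => by
    rintro _ ⟨p, hp, rfl⟩
    exact hx p hp
  let ρ₁ : Matrix.specialOrthogonalGroup (Fin 3) ℝ :=
    ⟨!![-1, 0, 0; 0, -1, 0; 0, 0, 1], by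
      rw [Matrix.mem_specialOrthogonalGroup_iff, Matrix.mem_orthogonalGroup_iff]
      constructor
      · ext i j
        fin_cases i <;> fin_cases j <;> simp [Matrix.mul_apply, Fin.sum_univ_three]
      · simp [Matrix.det_fin_three]⟩
  obtain ⟨x₀, h₀⟩ := hK 1
  obtain ⟨x₁, h₁⟩ := hK ρ₁
  refine ⟨S, K, S_compact, S_convex, S_interior, K_compact, K_convex, hK, _, _,
    ⟨h₀, 1, x₀, rfl⟩, ⟨h₁, ρ₁, x₁, rfl⟩, ?_⟩
  rintro ⟨C, c0, c1, hC, hc⟩
  choose ρ x hρ using fun t => (hC t).2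
  have e : ∀ t, C t = cp (iso (ρ t)) (x t) := hρ
  have a0 : iso (ρ 0) e0 = iso 1 e0 := axis_eq (x' := x₀) ((e 0).symm.trans c0)
  have a1 : iso (ρ 1) e0 = iso ρ₁ e0 := axis_eq (x' := x₁) ((e 1).symm.trans c1)
  have key := trapped (fun t => iso (ρ t)) x (fun t => e t ▸ (hC t).1)
    (by rw [a0, iso_apply]; simp) (fun t => by simpa only [← e] using hc t)
  have key' : iso ρ₁ e0 0 = e0 0 := congrArg (fun y : E => y 0) (a1.symm.trans key)
  rw [iso_apply] at key'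
  simp [ρ₁, e0, Matrix.toLpLin_apply] at key'
  linarith

end Pool.Agent.Results.MP_f4a04c_gt.SetCopies
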